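import Pool.Agent.T2h16.KE.Stm
import Pool.Agent.Y698.Hp
import Pool.Agent.Y698.Sh
import Pool.Agent.Y698.Shb

/-!
# Project KE: the curve `y² = x (x - D e) (x - D ē)` over `K ∋ √-7`, `D` in `K` (helper7)
-/

set_option autoImplicit false
set_option linter.unusedSectionVars false

attribute [-instance] DivisionRing.toRatAlgebra

namespace Pool.Agent.T2h7.KE

open WeierstrassCurve IsDedekindDomain NumberField WithZero

open Pool.Agent.Y698
open Pool.Agent.T2h16.KE
open Pool.Agent.TH841.SH.D (Pt act Gal Coch IsCoc IsCob LocTriv)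
open Pool.Agent.TH841.NF.D (IsShaCoc)
open Pool.Agent.TH841.SH (IsR IsX gf isX_zero isX_some not_isX)
open Pool.Agent.TH841.NF (act_act act_id act_some' pt_ext pt_inj coc_fin)

open scoped Classical

section field
variable {F : Type*} [Field F]

lemma rAK_conj (D a : F) : rAK D (1 - a) = rBK D a := by
  unfold rAK rBK; rw [eA_conj]
lemma rBK_conj (D a : F) : rBK D (1 - a) = rAK D a := by
  unfold rAK rBK; rw [eB_conj]

lemma rAK_sub {a : F} (ha : a ^ 2 = a - 2) (D : F) :
    rAK D a - rBK D a = D * (2 * a - 1) := by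
  unfold rAK rBK
  rw [← mul_sub, eA_sub ha]

lemma rAK_mul {a : F} (ha : a ^ 2 = a - 2) (D : F) : rAK D a * rBK D a = 112 * D ^ 2 := by
  unfold rAK rBK
  linear_combination D ^ 2 * (eA_mul ha)

lemma rAK_add {a : F} (ha : a ^ 2 = a - 2) (D : F) : rAK D a + rBK D a = -21 * D := by
  unfold rAK rBK
  linear_combination D * (eA_add ha)

lemma rAKB_ne [CharZero F] {D : F} (hD : D ≠ 0) {a : F} (ha : a ^ 2 = a - 2) :
    2 * a - 1 ≠ 0 ∧ (0 : F) ≠ rAK D a ∧ (0 : F) ≠ rBK D a ∧ rAK D a ≠ rBK D a := by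
  obtain ⟨h0, h1, h2, h3⟩ := eAB_ne ha
  refine ⟨h0, (mul_ne_zero hD h1.symm).symm, (mul_ne_zero hD h2.symm).symm, fun h => h3 ?_⟩
  exact mul_left_cancel₀ hD h

lemma map_rAK {G : Type*} [Field G] (φ : F →+* G) (D a : F) :
    φ (rAK D a) = rAK (φ D) (φ a) ∧ φ (rBK D a) = rBK (φ D) (φ a) := by
  unfold rAK rBK
  rw [map_mul, map_mul, (map_eAB φ a).1, (map_eAB φ a).2]
  exact ⟨rfl, rfl⟩

end field

lemma isRK {K L : Type} [Field K] [Field L] [Algebra K L] {a : L} (ha : a ^ 2 = a - 2) (D : K) :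
    IsR ((EEK K D).baseChange L) 0 (rAK (algebraMap K L D) a) (rBK (algebraMap K L D) a) where
  h1 := map_zero (algebraMap K L)
  h2 := by
    have e : ((EEK K D).baseChange L).a₂ = 21 * algebraMap K L D := by
      show algebraMap K L (21 * D) = 21 * algebraMap K L D
      rw [map_mul, map_ofNat]
    rw [e]
    linear_combination (rAK_add ha (algebraMap K L D))
  h3 := map_zero (algebraMap K L)
  h4 := by
    have e : ((EEK K D).baseChange L).a₄ = 112 * (algebraMap K L D) ^ 2 := by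
      show algebraMap K L (112 * D ^ 2) = 112 * (algebraMap K L D) ^ 2
      rw [map_mul, map_pow, map_ofNat]
    rw [e]
    linear_combination -(rAK_mul ha (algebraMap K L D))
  h6 := by
    rw [show ((EEK K D).baseChange L).a₆ = 0 from map_zero (algebraMap K L)]
    ring

section tower

variable {K C : Type} [Field K] [Field C] [Algebra K C]

/-- the roots in an extension -/
abbrev cA (C : Type) [Field C] [Algebra K C] (D a : K) : C :=
  rAK (algebraMap K C D) (algebraMap K C a)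
/-- the roots in an extension -/
abbrev cB (C : Type) [Field C] [Algebra K C] (D a : K) : C :=
  rBK (algebraMap K C D) (algebraMap K C a)

lemma cA_eq (D a : K) : cA C D a = algebraMap K C (rAK D a) := ((map_rAK _ D a).1).symm
lemma cB_eq (D a : K) : cB C D a = algebraMap K C (rBK D a) := ((map_rAK _ D a).2).symm

lemma alg_sq {a : K} (ha : a ^ 2 = a - 2) : (algebraMap K C a) ^ 2 = algebraMap K C a - 2 := by
  rw [← map_pow, ha, map_sub, map_ofNat]

/-- the points of order two are fixed -/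
lemma tor_fixK [CharZero C] {D a : K} (ha : a ^ 2 = a - 2) (σ : C ≃ₐ[K] C)
    {T : Pt (EEK K D) C} (hT : T + T = 0) : act (EEK K D) σ.toAlgHom T = T := by
  have key : ∀ (e : C) (he : σ e = e) (hn : ((EEK K D).baseChange C).toAffine.Nonsingular e 0),
      act (EEK K D) σ.toAlgHom (Affine.Point.some e 0 hn) =
        (Affine.Point.some e 0 hn : ((EEK K D).baseChange C).toAffine.Point) := by
    intro e he hn
    rw [act_some']
    exact pt_ext _ _ he (map_zero σ)
  rcases (isRK (alg_sq (C := C) ha) D).tors two_ne_zero hT with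
    rfl | ⟨h4, rfl⟩ | ⟨h4, rfl⟩ | ⟨h4, rfl⟩
  · exact map_zero _
  · exact key 0 (map_zero σ) h4
  · exact key _ (by rw [← (map_rAK _ D a).1]; exact σ.commutes _) h4
  · exact key _ (by rw [← (map_rAK _ D a).2]; exact σ.commutes _) h4

end tower

section half

variable {K : Type} [Field K] [NumberField K] {D : K}

/-- the sign of a square root -/
def SgnK (D : K) (e G : Cb K) (R : Pt (EEK K D) (Cb K)) (σ : Gal K) : Prop :=
  (IsX ((EEK K D).baseChange (Cb K)) e (act (EEK K D) σ.toAlgHom R - R) → σ G = G) ∧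
  (¬ IsX ((EEK K D).baseChange (Cb K)) e (act (EEK K D) σ.toAlgHom R - R) → σ G = -G)

lemma SgnK.iff {e G : Cb K} {R : Pt (EEK K D) (Cb K)} {σ : Gal K}
    (h : SgnK D e G R σ) (hG : G ≠ 0) :
    σ G = G ↔ IsX ((EEK K D).baseChange (Cb K)) e (act (EEK K D) σ.toAlgHom R - R) := by
  refine ⟨fun h1 => ?_, h.1⟩
  by_contra hcon
  have h2 := h.2 hcon
  rw [h1] at h2
  apply hG
  have h3 : (2 : Cb K) * G = 0 := by linear_combination h2
  exact (mul_eq_zero.1 h3).resolve_left two_ne_zero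

variable (hD0 : D ≠ 0) {a : K} (ha : a ^ 2 = a - 2)

include hD0 ha in
lemma halfptK {x0 : Cb K}
    (hn0 : ((EEK K D).baseChange (Cb K)).toAffine.Nonsingular x0 0)
    (R : Pt (EEK K D) (Cb K))
    (hR : R + R = (Affine.Point.some x0 0 hn0 :
      ((EEK K D).baseChange (Cb K)).toAffine.Point)) :
    ∃ G0 GA GB : Cb K, G0 ^ 2 = x0 ∧ GA ^ 2 = x0 - cA (Cb K) D a ∧ GB ^ 2 = x0 - cB (Cb K) D a ∧
      ∀ σ : Gal K, SgnK D 0 G0 R σ ∧ SgnK D (cA (Cb K) D a) GA R σ ∧
        SgnK D (cB (Cb K) D a) GB R σ := by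
  have h2 : (2 : Cb K) ≠ 0 := two_ne_zero
  have hc := alg_sq (C := Cb K) ha
  have hD0' : algebraMap K (Cb K) D ≠ 0 := by
    rw [Ne, map_eq_zero]
    exact hD0
  have hIs := isRK hc D
  obtain ⟨hs0, n1, n2, n3⟩ := rAKB_ne hD0' hc
  have hT2 : ∀ σ : Gal K,
      (act (EEK K D) σ.toAlgHom R - R) + (act (EEK K D) σ.toAlgHom R - R) = 0 := by
    intro σ
    have e : ∀ A B : Pt (EEK K D) (Cb K), (A - B) + (A - B) = (A + A) - (B + B) :=
      fun A B => by abel
    rw [e, ← map_add, hR]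
    have h4 : @HAdd.hAdd (Pt (EEK K D) (Cb K)) (Pt (EEK K D) (Cb K)) _ _ (Affine.Point.some x0 0 hn0)
        (Affine.Point.some x0 0 hn0) = 0 := (hIs.add_self h2 hn0).2 rfl
    have h5 := tor_fixK ha σ h4
    erw [h5]
    exact sub_self _
  have hadd : ∀ σ : Gal K, R + (act (EEK K D) σ.toAlgHom R - R) = act (EEK K D) σ.toAlgHom R :=
    fun σ => add_sub_cancel _ _
  rcases R with _ | ⟨u, v, hn⟩
  · exfalso
    have h3 : (0 : Pt (EEK K D) (Cb K)) = (Affine.Point.some x0 0 hn0 :
      ((EEK K D).baseChange (Cb K)).toAffine.Point) :=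
        (add_zero (0 : Pt (EEK K D) (Cb K))).symm.trans hR
    exact Affine.Point.some_ne_zero _ h3.symm
  have hv : v ≠ 0 := by
    intro hv
    have h3 := (hIs.add_self h2 hn).2 hv
    have h4 : (0 : ((EEK K D).baseChange (Cb K)).toAffine.Point) = Affine.Point.some x0 0 hn0 :=
      h3.symm.trans hR
    exact Affine.Point.some_ne_zero _ h4.symm
  have hR' : (Affine.Point.some u v hn : ((EEK K D).baseChange (Cb K)).toAffine.Point) + .some u v hn =
    .some x0 0 hn0 := hR
  obtain ⟨X, Y, hn', e1, hX0⟩ := hIs.dup h2 hn hv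
  rw [hR', Affine.Point.some.injEq] at e1
  obtain ⟨rfl, rfl⟩ := e1
  obtain ⟨X', Y', hn'', e1', hXA⟩ := hIs.rot.dup h2 hn hv
  rw [hR', Affine.Point.some.injEq] at e1'
  obtain ⟨rfl, rfl⟩ := e1'
  obtain ⟨X', Y', hn'', e1', hXB⟩ := hIs.rot.rot.dup h2 hn hv
  rw [hR', Affine.Point.some.injEq] at e1'
  obtain ⟨rfl, rfl⟩ := e1'
  have hA : ∀ σ : Gal K, σ (cA (Cb K) D a) = cA (Cb K) D a := by
    intro σ
    rw [cA_eq]
    exact σ.commutes _
  have hB : ∀ σ : Gal K, σ (cB (Cb K) D a) = cB (Cb K) D a := by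
    intro σ
    rw [cB_eq]
    exact σ.commutes _
  refine ⟨gf ((EEK K D).baseChange (Cb K)) 0 (cA (Cb K) D a) (cB (Cb K) D a) (.some u v hn),
    gf ((EEK K D).baseChange (Cb K)) (cA (Cb K) D a) (cB (Cb K) D a) 0 (.some u v hn),
    gf ((EEK K D).baseChange (Cb K)) (cB (Cb K) D a) 0 (cA (Cb K) D a) (.some u v hn), ?_,
    hXA.symm, hXB.symm, fun σ => ?_⟩
  · rw [sub_zero] at hX0
    exact hX0.symm
  · have key : ∀ {a b d : Cb K} (_ : IsR ((EEK K D).baseChange (Cb K)) a b d) (_ : a ≠ b) (_ : a ≠ d)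
        (_ : b ≠ d) (_ : σ a = a) (_ : σ b = b) (_ : σ d = d),
        SgnK D a (gf ((EEK K D).baseChange (Cb K)) a b d (.some u v hn)) (.some u v hn) σ := by
      intro a b d h hab had hbd sa sb sd
      have e1 : σ (gf ((EEK K D).baseChange (Cb K)) a b d (.some u v hn)) =
          gf ((EEK K D).baseChange (Cb K)) a b d (act (EEK K D) σ.toAlgHom (.some u v hn)) :=
        act_gf' (EEK K D) σ.toAlgHom sa sb sd (.some u v hn)
      obtain ⟨u', v', hn', e2, hv', h3, h4⟩ := h.sign h2 hab had hbd hn hv (hT2 σ)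
      have e3 : @HAdd.hAdd (Pt (EEK K D) (Cb K)) (Pt (EEK K D) (Cb K)) _ _ (Affine.Point.some u v hn)
        (act (EEK K D) σ.toAlgHom (.some u v hn) - .some u v hn : Pt (EEK K D) (Cb K)) =
        (Affine.Point.some u' v' hn' : ((EEK K D).baseChange (Cb K)).toAffine.Point) := e2
      have e4 := hadd σ
      have e5 := e3.symm.trans e4
      unfold SgnK
      rw [e1]
      constructor
      · intro h5
        have h6 := h3 h5
        erw [e5] at h6
        exact h6
      · intro h5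
        have h6 := h4 h5
        erw [e5] at h6
        exact h6
    have hz := map_zero σ
    exact ⟨key hIs n1 n2 n3 hz (hA σ) (hB σ),
      key hIs.rot n3 n1.symm n2.symm (hA σ) (hB σ) hz,
      key hIs.rot.rot n2.symm n3.symm n1 (hB σ) hz (hA σ)⟩

end half

end Pool.Agent.T2h7.KE
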