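import Pool.Agent.T2h16.KE.Stm
import Pool.Agent.Y698.Pu
import Pool.Agent.Y698.Rk
import Pool.Agent.W189.NF.LocalPoly

/-!
# Project KE: finitely many points (helper7)
-/

set_option autoImplicit false
set_option linter.unusedSectionVars false
set_option linter.unusedVariables false

namespace Pool.Agent.T2h7.KE

open WithZero WeierstrassCurve IsDedekindDomain NumberField
open Pool.Agent.Y698
open Pool.Agent.T2h16.KE
open Pool.Agent.H437R2.Man.MW

section
variable {K : Type} [Field K] [NumberField K]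

lemma hyp_le (t : 𝓞 K) (w : HeightOneSpectrum (𝓞 K)) : w.valuation K (t : K) ≤ 1 :=
  w.valuation_le_one t

lemma hyp_sub (t : 𝓞 K) (w : HeightOneSpectrum (𝓞 K)) :
    w.valuation K (1 + 4 * (t : K) - 1) ≤ w.valuation K 4 := by
  rw [add_sub_cancel_left, map_mul]
  exact mul_le_of_le_one_right' (hyp_le t w)

lemma hyp_odd (t : 𝓞 K) (w : HeightOneSpectrum (𝓞 K)) (h : w.valuation K (1 + 4 * (t : K)) < 1) :
    w.valuation K 2 = 1 := by
  by_contra h2
  have h2' : w.valuation K 2 < 1 := lt_of_le_of_ne w_two_le h2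
  have h4 : w.valuation K (4 * (t : K)) < 1 := by
    have e : (4 : K) * t = 2 * (2 * t) := by ring
    rw [e, map_mul, map_mul]
    exact mul_lt_one_of_lt_of_le h2' (mul_le_one' h2'.le (hyp_le t w))
  have h5 : w.valuation K 1 < 1 := by
    have e : (1 : K) = (1 + 4 * (t : K)) - 4 * t := by ring
    rw [e]
    exact Valuation.map_sub_lt _ h h4
  rw [map_one] at h5
  exact lt_irrefl _ h5

lemma hyp_ne' {a : K} {t : 𝓞 K} (h : Hyp a t) : 1 + 4 * (t : K) ≠ 0 := by
  intro h0
  obtain ⟨v, h1, h2, h3⟩ := h.odd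
  rw [h0, map_zero] at h2
  exact zero_ne_one h2

lemma pt_PDK {a : K} {t : 𝓞 K} (hH : Hyp a t) {x y : K} (hy : y ≠ 0)
    (h : y ^ 2 = x * (x - (1 + 4 * (t : K)) * eA a) * (x - (1 + 4 * (t : K)) * eB a)) :
    PDK a (1 + 4 * (t : K)) (x - (1 + 4 * (t : K)) * eB a) := by
  have ha := hH.ha
  have hx0 : x - (1 + 4 * (t : K)) * eB a ≠ 0 := by
    intro h0
    rw [h0, mul_zero] at h
    exact hy (pow_eq_zero_iff two_ne_zero |>.1 h)
  refine ⟨hx0, fun v h7 => ?_⟩
  set w := v.valuation K with hw
  constructor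
  · intro hD
    by_cases h2 : w 2 = 1
    · refine ⟨ev_oddD ha hD h2 h7 hy h, fun hb => ?_⟩
      have := two_lt ha hb
      rw [h2] at this
      exact absurd this (lt_irrefl _)
    · have h2' : w 2 < 1 := lt_of_le_of_ne w_two_le h2
      have h2e : w 2 = exp (-1) := hH.un v h2'
      have hab : w a * w (1 - a) = exp (-1) := by
        rw [← map_mul, ab_eq ha, h2e]
      by_cases hwa : w a = 1
      · have hU := ur_twoD ha hD (hyp_sub t v) h2' h7 hwa hy h
        exact ⟨hU.ev h2', fun _ => hU⟩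
      · have hb1 : w (1 - a) = 1 := by
          have ha0 : a ≠ 0 := by
            rintro rfl
            rw [map_zero, zero_mul] at hab
            exact exp_ne_zero hab.symm
          have hb0 : (1 - a) ≠ 0 := by
            intro h0
            rw [h0, map_zero, mul_zero] at hab
            exact exp_ne_zero hab.symm
          obtain ⟨m, hm⟩ := vexp (w := w) ha0
          obtain ⟨k, hk⟩ := vexp (w := w) hb0
          have h1 := wa_le (w := w) ha
          have h3 := wa_le (w := w) (ha_conj ha)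
          rw [hm] at h1 hwa hab
          rw [hk] at h3 hab
          rw [← exp_add, exp_inj] at hab
          rw [← exp_zero, exp_le_exp] at h1 h3
          rw [← exp_zero, exp_inj] at hwa
          rw [hk, ← exp_zero, exp_inj]
          omega
        refine ⟨ev_twoD ha hD (hyp_sub t v) h2e h7 hb1 hy h, fun hb => ?_⟩
        rw [hb1] at hb
        exact absurd hb (lt_irrefl _)
  · intro hD
    exact sq_D ha (hH.sqf v hD) (hyp_odd t v hD) h7 hy h

theorem fin_K {a : K} {t : 𝓞 K} (h : Hyp a t) (h' : Hyp (1 - a) t)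
    (hB : ∀ d, PDK a (1 + 4 * (t : K)) d → SDD a (1 + 4 * (t : K)) d)
    (hA : ∀ d, PDK (1 - a) (1 + 4 * (t : K)) d → SDD (1 - a) (1 + 4 * (t : K)) d) :
    Finite (EX K (t : K)).toAffine.Point := by
  classical
  have ha := h.ha
  have hD0 := hyp_ne' h
  obtain ⟨n1, n2, n3⟩ := roots_neD ha hD0
  have hm := eA_mul ha
  have hadd := eA_add ha
  set D : K := 1 + 4 * (t : K) with hDd
  have hfin : Finite (Pt (0 : K) (-(D * eA a)) (-(D * eB a))) := by
    refine finite_of_dec (pt_fg n1 n2 n3) (dec_of_classes ha hD0 fun x y hy hq => ?_)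
    refine ⟨hB _ (pt_PDK h hy hq), ?_⟩
    have h1 : y ^ 2 = x * (x - D * eA (1 - a)) * (x - D * eB (1 - a)) := by
      rw [eA_conj, eB_conj, hq]
      ring
    have h2 := hA _ (pt_PDK h' hy h1)
    rw [eB_conj] at h2
    have e : D * (2 * (1 - a) - 1) = -(D * (2 * a - 1)) := by ring
    unfold SDD at h2
    rwa [e] at h2
  have hQ : ∀ Q : {Q : K × K // (EX K (t : K)).toAffine.Equation Q.1 Q.2},
      (crv (0 : K) (-(D * eA a)) (-(D * eB a))).toAffine.Nonsingular
        (4 * Q.1.1 - 8 * D) (8 * Q.1.2 + 4 * Q.1.1) := by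
    rintro ⟨⟨x, y⟩, hq⟩
    apply crv_nonsing n1 n2 n3
    have h1 : (8 * y + 4 * x) ^ 2 = (4 * x - 8 * D) ^ 3 +
        21 * D * (4 * x - 8 * D) ^ 2 + 112 * D ^ 2 * (4 * x - 8 * D) := by
      rw [WeierstrassCurve.Affine.equation_iff] at hq
      unfold EX at hq
      simp only at hq
      rw [hDd]
      linear_combination 64 * hq
    simp only
    rw [h1]
    linear_combination D * (4 * x - 8 * D) ^ 2 * hadd - D ^ 2 * (4 * x - 8 * D) * hm
  have hinj : Function.Injective (fun Q : {Q : K × K // (EX K (t : K)).toAffine.Equation Q.1 Q.2} =>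
      (WeierstrassCurve.Affine.Point.some _ _ (hQ Q) :
        Pt (0 : K) (-(D * eA a)) (-(D * eB a)))) := by
    rintro ⟨⟨x, y⟩, hq⟩ ⟨⟨x', y'⟩, hq'⟩ he
    simp only [WeierstrassCurve.Affine.Point.some.injEq] at he
    obtain ⟨e3, e4⟩ := he
    have e5 : x = x' := by
      have h4 : (4 : K) ≠ 0 := by norm_num
      apply mul_left_cancel₀ h4
      linear_combination e3
    subst e5
    have e6 : y = y' := by
      have h8 : (8 : K) ≠ 0 := by norm_num
      apply mul_left_cancel₀ h8
      linear_combination e4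
    subst e6
    rfl
  have hf : Finite {Q : K × K // (EX K (t : K)).toAffine.Equation Q.1 Q.2} :=
    Finite.of_injective _ hinj
  exact Finite.of_injective _ (Pool.Agent.W189.NF.ptMap_injective (EX K (t : K)))

end

end Pool.Agent.T2h7.KE
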