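import Pool.Agent.T2h7.KE.Vch

/-!
# Project KE: no element of order two in the Tate-Shafarevich group (helper7)
-/

set_option autoImplicit false
set_option linter.unusedSectionVars false

attribute [-instance] DivisionRing.toRatAlgebra

namespace Pool.Agent.T2h7.KE

open WeierstrassCurve IsDedekindDomain NumberField WithZero

open Pool.Agent.Y698
open Pool.Agent.T2h16.KE
open Pool.Agent.TH841.SH.D (Pt act Gal Coch IsCoc IsCob LocTriv cob)
open Pool.Agent.TH841.NF.D (IsShaCoc shaCoc Sha)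
open Pool.Agent.TH841.SH (IsR IsX gf isX_zero isX_some not_isX)
open Pool.Agent.TH841.NF (act_act act_id act_some' pt_ext pt_inj coc_fin)

open scoped Classical

variable {K : Type} [Field K] [NumberField K]

/-- a cocycle whose classes are trivial or the class of a point of order two is a coboundary -/
theorem res_cobK {D : K} (hD0 : D ≠ 0) {g : Coch (EEK K D)} (h2g : ∀ σ, g σ + g σ = 0) {a : K}
    (ha : a ^ 2 = a - 2) {qA qB : K} {sA sB : Cb K}
    (hsA : sA ^ 2 = algebraMap K (Cb K) qA) (hsB : sB ^ 2 = algebraMap K (Cb K) qB)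
    (kA : ∀ τ : Gal K, (τ sA = sA ↔ IsX ((EEK K D).baseChange (Cb K)) (cA (Cb K) D a) (g τ)))
    (kB : ∀ τ : Gal K, (τ sB = sB ↔ IsX ((EEK K D).baseChange (Cb K)) (cB (Cb K) D a) (g τ)))
    (hcA : SDD (1 - a) D qA) (hcB : SDD a D qB) :
    ∃ R : Pt (EEK K D) (Cb K), ∀ τ : Gal K, g τ = act (EEK K D) τ.toAlgHom R - R := by
  set c : Cb K := algebraMap K (Cb K) a with hcd
  have hc : c ^ 2 = c - 2 := alg_sq ha
  have h2 : (2 : Cb K) ≠ 0 := two_ne_zero
  have hD0' : algebraMap K (Cb K) D ≠ 0 := by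
    rw [Ne, map_eq_zero]
    exact hD0
  have hIs := isRK hc D
  obtain ⟨hs0, n1, n2, n3⟩ := rAKB_ne hD0' hc
  have hfx : ∀ τ : Gal K, ∀ x : K, τ (algebraMap K (Cb K) x) = algebraMap K (Cb K) x :=
    fun τ x => τ.commutes x
  have hAF : cA (Cb K) D a = algebraMap K (Cb K) (rAK D a) := cA_eq D a
  have hBF : cB (Cb K) D a = algebraMap K (Cb K) (rBK D a) := cB_eq D a
  -- a trivial class
  have triv : ∀ {q : K} {s : Cb K}, SqE q 1 → s ^ 2 = algebraMap K (Cb K) q → ∀ τ : Gal K,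
      τ s = s := by
    rintro q s ⟨z, hz, hq⟩ hs τ
    refine (fixiff (hfx τ) hz (t := 1) ?_).2 (map_one τ)
    rw [hs, hq, one_mul, map_pow, mul_one]
  -- a nontrivial class
  have ntriv : ∀ {q d w : K} {s G : Cb K}, SqE q d → s ^ 2 = algebraMap K (Cb K) q → w ≠ 0 →
      G ^ 2 = algebraMap K (Cb K) (d * w ^ 2) → ∀ τ : Gal K, (τ s = s ↔ τ G = G) := by
    rintro q d w s G ⟨z, hz, hq⟩ hs hw hG τ
    refine fixiff (hfx τ) (div_ne_zero hz hw) ?_
    have hw' : algebraMap K (Cb K) w ≠ 0 := by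
      rw [Ne, map_eq_zero]
      exact hw
    rw [hs, hq, mul_pow, hG, ← map_pow, ← map_mul]
    congr 1
    field_simp
  have ha0 : a ≠ 0 := by
    rintro rfl
    norm_num at ha
  have hb0 : 1 - a ≠ 0 := by
    intro h0
    have := ab_eq ha
    rw [h0, mul_zero] at this
    norm_num at this
  -- from the pairings to the equality
  have fin : ∀ R : Pt (EEK K D) (Cb K), (R + R) + (R + R) = 0 →
      (∀ τ : Gal K,
        ((IsX ((EEK K D).baseChange (Cb K)) (cA (Cb K) D a) (g τ) ↔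
          IsX ((EEK K D).baseChange (Cb K)) (cA (Cb K) D a) (act (EEK K D) τ.toAlgHom R - R)) ∧
        (IsX ((EEK K D).baseChange (Cb K)) (cB (Cb K) D a) (g τ) ↔
          IsX ((EEK K D).baseChange (Cb K)) (cB (Cb K) D a) (act (EEK K D) τ.toAlgHom R - R)))) →
      ∃ R : Pt (EEK K D) (Cb K), ∀ τ : Gal K, g τ = act (EEK K D) τ.toAlgHom R - R := by
    intro R hR h
    refine ⟨R, fun τ => ?_⟩
    have hT : (act (EEK K D) τ.toAlgHom R - R) + (act (EEK K D) τ.toAlgHom R - R) = 0 := by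
      have e : ∀ A B : Pt (EEK K D) (Cb K), (A - B) + (A - B) = (A + A) - (B + B) :=
        fun A B => by abel
      rw [e, ← map_add, tor_fixK ha τ hR, sub_self]
    exact hIs.rot.ext h2 n3 n1.symm n2.symm (h2g τ) hT (h τ).1 (h τ).2
  have hns : ∀ e : Cb K, (0 : Cb K) ^ 2 = (e - 0) * (e - cA (Cb K) D a) * (e - cB (Cb K) D a) →
      ((EEK K D).baseChange (Cb K)).toAffine.Nonsingular e 0 :=
    fun e he => hIs.nons h2 n1 n2 n3 he
  have hhalf : ∀ (e : Cb K) (hn : ((EEK K D).baseChange (Cb K)).toAffine.Nonsingular e 0),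
      ∃ R : Pt (EEK K D) (Cb K), R + R = (Affine.Point.some e 0 hn :
        ((EEK K D).baseChange (Cb K)).toAffine.Point) ∧ (R + R) + (R + R) = 0 := by
    intro e hn
    obtain ⟨R, hR⟩ : ∃ R : Pt (EEK K D) (Cb K), (Affine.Point.some e 0 hn :
        ((EEK K D).baseChange (Cb K)).toAffine.Point) = R + R :=
      hIs.div h2 n1 n2 n3 (Affine.Point.some e 0 hn)
    refine ⟨R, hR.symm, ?_⟩
    have h4 : @HAdd.hAdd (Pt (EEK K D) (Cb K)) (Pt (EEK K D) (Cb K)) _ _
        (Affine.Point.some e 0 hn) (Affine.Point.some e 0 hn) = 0 := (hIs.add_self h2 hn).2 rfl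
    have h5 : (R + R : Pt (EEK K D) (Cb K)) = (Affine.Point.some e 0 hn :
        ((EEK K D).baseChange (Cb K)).toAffine.Point) := hR.symm
    rw [h5]
    exact h4
  rcases hcB with hB | hB <;> rcases hcA with hA | hA
  · -- both classes are trivial
    refine fin 0 (by rw [add_zero, add_zero]) (fun τ => ?_)
    rw [map_zero, sub_zero]
    have e1 := (kA τ).1 (triv hA hsA τ)
    have e2 := (kB τ).1 (triv hB hsB τ)
    exact ⟨⟨fun _ => isX_zero _, fun _ => e1⟩, ⟨fun _ => isX_zero _, fun _ => e2⟩⟩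
  · -- the point `(eB, 0)`
    have hn := hns (cB (Cb K) D a) (by ring)
    obtain ⟨R, hR, hR4⟩ := hhalf (cB (Cb K) D a) hn
    obtain ⟨G0, GA, GB, g0, gA, gB, hS⟩ := halfptK hD0 ha hn R hR
    refine fin R hR4 (fun τ => ?_)
    obtain ⟨t0, tA, tB⟩ := hS τ
    have hGA : GA ≠ 0 := by
      rintro rfl
      apply n3
      linear_combination gA
    have hG0 : G0 ≠ 0 := by
      rintro rfl
      apply n2
      linear_combination g0
    constructor
    · rw [← kA τ, ← tA.iff hGA]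
      refine ntriv (w := 1) hA hsA one_ne_zero ?_ τ
      rw [gA, hAF, hBF, ← map_sub]
      congr 1
      have := rAK_sub ha D
      linear_combination -this
    · have e1 := (kB τ).1 (triv hB hsB τ)
      refine ⟨fun _ => ?_, fun _ => e1⟩
      have hT : (act (EEK K D) τ.toAlgHom R - R) + (act (EEK K D) τ.toAlgHom R - R) = 0 := by
        have e : ∀ A B : Pt (EEK K D) (Cb K), (A - B) + (A - B) = (A + A) - (B + B) :=
          fun A B => by abel
        rw [e, ← map_add, tor_fixK ha τ hR4, sub_self]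
      refine isX_three hIs h2 n1 hT ?_
      rw [← t0.iff hG0, ← tA.iff hGA]
      refine fixiff (hfx τ) (z := a ^ 2) (pow_ne_zero 2 ha0) ?_
      rw [mul_pow, g0, gA, hAF, hBF, ← map_sub, ← map_pow, ← map_mul]
      congr 1
      have h7 := rAK_sub ha D
      have h8 : rBK D a = D * (-((2 * a - 1) * a ^ 4)) := rfl
      linear_combination h8 + a ^ 4 * h7
  · -- the point `(eA, 0)`
    have hn := hns (cA (Cb K) D a) (by ring)
    obtain ⟨R, hR, hR4⟩ := hhalf (cA (Cb K) D a) hn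
    obtain ⟨G0, GA, GB, g0, gA, gB, hS⟩ := halfptK hD0 ha hn R hR
    refine fin R hR4 (fun τ => ?_)
    obtain ⟨t0, tA, tB⟩ := hS τ
    have hGB : GB ≠ 0 := by
      rintro rfl
      apply n3
      linear_combination -gB
    have hG0 : G0 ≠ 0 := by
      rintro rfl
      apply n1
      linear_combination g0
    constructor
    · have e1 := (kA τ).1 (triv hA hsA τ)
      refine ⟨fun _ => ?_, fun _ => e1⟩
      have hT : (act (EEK K D) τ.toAlgHom R - R) + (act (EEK K D) τ.toAlgHom R - R) = 0 := by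
        have e : ∀ A B : Pt (EEK K D) (Cb K), (A - B) + (A - B) = (A + A) - (B + B) :=
          fun A B => by abel
        rw [e, ← map_add, tor_fixK ha τ hR4, sub_self]
      refine isX_three hIs.rot.rot.swap h2 n2 hT ?_
      rw [← t0.iff hG0, ← tB.iff hGB]
      refine fixiff (hfx τ) (z := (1 - a) ^ 2) (pow_ne_zero 2 hb0) ?_
      rw [mul_pow, g0, gB, hAF, hBF, ← map_sub, ← map_pow, ← map_mul]
      congr 1
      have h7 := rAK_sub ha D
      have h8 : rAK D a = D * ((2 * a - 1) * (1 - a) ^ 4) := rfl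
      linear_combination h8 - (1 - a) ^ 4 * h7
    · rw [← kB τ, ← tB.iff hGB]
      refine ntriv (w := 1) hB hsB one_ne_zero ?_ τ
      rw [gB, hAF, hBF, ← map_sub]
      congr 1
      have := rAK_sub ha D
      linear_combination this
  · -- the point `(0, 0)`
    have hn := hns 0 (by ring)
    obtain ⟨R, hR, hR4⟩ := hhalf 0 hn
    obtain ⟨G0, GA, GB, g0, gA, gB, hS⟩ := halfptK hD0 ha hn R hR
    refine fin R hR4 (fun τ => ?_)
    obtain ⟨t0, tA, tB⟩ := hS τ
    have hGB : GB ≠ 0 := by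
      rintro rfl
      apply n2
      linear_combination -gB
    have hGA : GA ≠ 0 := by
      rintro rfl
      apply n1
      linear_combination -gA
    constructor
    · rw [← kA τ, ← tA.iff hGA]
      refine ntriv (w := (1 - a) ^ 2) hA hsA (pow_ne_zero 2 hb0) ?_ τ
      rw [gA, hAF, zero_sub, ← map_neg]
      congr 1
      unfold rAK eA
      ring
    · rw [← kB τ, ← tB.iff hGB]
      refine ntriv (w := a ^ 2) hB hsB (pow_ne_zero 2 ha0) ?_ τ
      rw [gB, hBF, zero_sub, ← map_neg]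
      congr 1
      unfold rBK eB
      ring

lemma loc_vPK {t : K} {f : Coch (EX K t)} {E : Type} [Field E] [CharZero E] [Algebra K E]
    (h : LocTriv (EX K t) E f) :
    LocTriv (EEK K (1 + 4 * t)) E (fun σ => vPK K t (Cb K) (f σ)) := by
  intro ι
  obtain ⟨P, hP⟩ := h ι
  refine ⟨vPK K t (AlgebraicClosure E) P, fun τ σ hσ => ?_⟩
  rw [act_vPK, act_vPK, hP τ σ hσ, map_sub]

lemma hyp_ne {a : K} {t : 𝓞 K} (h : Hyp a t) : 1 + 4 * (t : K) ≠ 0 := by
  intro h0
  obtain ⟨v, h1, h2, h3⟩ := h.odd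
  rw [h0, map_zero] at h2
  exact zero_ne_one h2

theorem sha_twoK (hsel : S_SELK) {a : K} {t : 𝓞 K} (h : Hyp a t) (h' : Hyp (1 - a) t)
    (hB : ∀ d, PDK a (1 + 4 * (t : K)) d → SDD a (1 + 4 * (t : K)) d)
    (hA : ∀ d, PDK (1 - a) (1 + 4 * (t : K)) d → SDD (1 - a) (1 + 4 * (t : K)) d)
    (x : Sha (EX K (t : K))) (hx : x + x = 0) : x = 0 := by
  have ha := h.ha
  have hD0 := hyp_ne h
  obtain ⟨f, rfl⟩ := QuotientAddGroup.mk_surjective x
  have hx' : f + f ∈ (cob (EX K (t : K))).addSubgroupOf (shaCoc (EX K (t : K))) :=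
    (QuotientAddGroup.eq_zero_iff (f + f)).1 hx
  rw [AddSubgroup.mem_addSubgroupOf] at hx'
  refine (QuotientAddGroup.eq_zero_iff f).2 ?_
  rw [AddSubgroup.mem_addSubgroupOf]
  obtain ⟨P, hP⟩ := hx'
  have hP1 : ∀ τ : Gal K, (f : Coch (EX K (t : K))) τ + (f : Coch (EX K (t : K))) τ =
    act (EX K (t : K)) τ.toAlgHom P - P := hP
  obtain ⟨⟨hlc, hcoc⟩, hloc, -⟩ := f.2
  -- halving
  have hc := alg_sq (C := Cb K) ha
  have hD0' : algebraMap K (Cb K) (1 + 4 * (t : K)) ≠ 0 := by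
    rw [Ne, map_eq_zero]
    exact hD0
  have hIs := isRK hc (1 + 4 * (t : K))
  obtain ⟨hs0, n1, n2, n3⟩ := rAKB_ne hD0' hc
  obtain ⟨Q, hQ⟩ : ∃ Q : Pt (EEK K (1 + 4 * (t : K))) (Cb K), vPK K (t : K) (Cb K) P = Q + Q :=
    hIs.div two_ne_zero n1 n2 n3 (vPK K (t : K) (Cb K) P)
  have hg : Co2K (D := 1 + 4 * (t : K)) (fun τ => vPK K (t : K) (Cb K)
      ((f : Coch (EX K (t : K))) τ) - (act (EEK K (1 + 4 * (t : K))) τ.toAlgHom Q - Q)) := by
    refine ⟨fun τ => ?_, fun σ τ => ?_, ?_, fun v => ?_⟩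
    · have e : ∀ A B D : Pt (EEK K (1 + 4 * (t : K))) (Cb K), (A - (B - D)) + (A - (B - D)) =
          (A + A) - ((B + B) - (D + D)) := fun A B D => by abel
      show vPK K (t : K) (Cb K) ((f : Coch (EX K (t : K))) τ) -
          (act (EEK K (1 + 4 * (t : K))) τ.toAlgHom Q - Q) +
        (vPK K (t : K) (Cb K) ((f : Coch (EX K (t : K))) τ) -
          (act (EEK K (1 + 4 * (t : K))) τ.toAlgHom Q - Q)) = 0
      rw [e, ← map_add, hP1, ← map_add, ← hQ, map_sub, act_vPK, sub_self]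
    · show vPK K (t : K) (Cb K) ((f : Coch (EX K (t : K))) (σ * τ)) -
        (act (EEK K (1 + 4 * (t : K))) (σ * τ).toAlgHom Q - Q) = _
      rw [hcoc, map_add, act_mul', map_sub, map_sub, act_vPK]
      abel
    · obtain ⟨S, hS⟩ := coc_fin (W := EX K (t : K)) ⟨hlc, hcoc⟩
      obtain ⟨S', hS'⟩ := fix_fin Q
      refine ⟨S ∪ S', fun τ hτ => ?_⟩
      show vPK K (t : K) (Cb K) ((f : Coch (EX K (t : K))) τ) -
        (act (EEK K (1 + 4 * (t : K))) τ.toAlgHom Q - Q) = 0
      rw [hS τ (fun x hx => hτ x (Finset.mem_union_left _ hx)), map_zero,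
        hS' τ (fun x hx => hτ x (Finset.mem_union_right _ hx)), sub_self, sub_self]
    · have hch : CharZero (v.adicCompletion K) := charC v
      exact loc_sub (loc_vPK (hloc v)) Q
  obtain ⟨qB, sB, hqB, hsB, kB, hPB⟩ := hsel K a t h _ hg
  obtain ⟨qA, sA, hqA, hsA, kA, hPA⟩ := hsel K (1 - a) t h' _ hg
  rw [rBK_conj] at kA
  obtain ⟨R, hR⟩ := res_cobK hD0 hg.two ha hsA hsB
    (fun τ => by rw [cA_eq]; exact kA τ) (fun τ => by rw [cB_eq]; exact kB τ) (hA _ hPA) (hB _ hPB)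
  obtain ⟨R', hR'⟩ := vPK_surj K (t : K) (Cb K) (Q + R)
  refine ⟨R', fun τ => ?_⟩
  apply vPK_inj K (t : K) (Cb K)
  have h1 := hR τ
  have h2 : vPK K (t : K) (Cb K) ((f : Coch (EX K (t : K))) τ) =
      (act (EEK K (1 + 4 * (t : K))) τ.toAlgHom R - R) +
        (act (EEK K (1 + 4 * (t : K))) τ.toAlgHom Q - Q) := by
    rw [← h1]
    abel
  rw [h2, map_sub, ← act_vPK, hR', map_add]
  abel

end Pool.Agent.T2h7.KE
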